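import Pool.Agent.TH783.IS.Main
import Pool.Agent.TH686.FO.Main

set_option autoImplicit false

/-!
Vaught's conjecture, perfect-set form, for first-order theories of graphs without a given induced
subgraph `H`: it holds if `H` is an induced subgraph of the path with four vertices, and in all
other cases it is equivalent to the full conjecture.
-/

namespace Pool.Agent.Results.MP_5df2c5_lc.ForbiddenInducedSubgraphs

open FirstOrder FirstOrder.Language

/-- Vaught's conjecture, perfect-set form, for the theory `T` in the language `L` (the body of the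
frozen statement): the models with universe `ℕ` fall into countably many isomorphism classes, or
some continuous family of models, indexed by the Cantor space, consists of pairwise
non-isomorphic models. -/
def Dichotomy (L : FirstOrder.Language.{0, 0}) (T : L.Theory) : Prop :=
  (∃ g : ℕ → L.Structure ℕ, ∀ S : L.Structure ℕ,
      @FirstOrder.Language.Theory.Model L ℕ S T →
        ∃ n : ℕ, Nonempty (@FirstOrder.Language.Equiv L ℕ ℕ S (g n))) ∨
  (∃ f : (ℕ → Bool) → L.Structure ℕ,
      (∀ x : ℕ → Bool, @FirstOrder.Language.Theory.Model L ℕ (f x) T) ∧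
      (∀ x y : ℕ → Bool,
          Nonempty (@FirstOrder.Language.Equiv L ℕ ℕ (f x) (f y)) → x = y) ∧
      (∀ (n : ℕ) (R : L.Relations n) (a : Fin n → ℕ),
          IsClopen {x : ℕ → Bool | @FirstOrder.Language.Structure.RelMap L ℕ (f x) n R a}) ∧
      (∀ (n : ℕ) (F : L.Functions n) (a : Fin n → ℕ) (b : ℕ),
          IsOpen {x : ℕ → Bool | @FirstOrder.Language.Structure.funMap L ℕ (f x) n F a = b}))

/-- Vaught's conjecture for all first-order theories in all countable languages (the frozen
statement). -/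
def FullConjecture : Prop :=
  ∀ L : FirstOrder.Language.{0, 0}, Countable L.Symbols → ∀ T : L.Theory, Dichotomy L T

/-- The language with one binary relation symbol. -/
abbrev LG : FirstOrder.Language.{0, 0} := FirstOrder.Language.graph

/-- The binary relation of a structure. -/
def Adj (S : LG.Structure ℕ) (u v : ℕ) : Prop :=
  @FirstOrder.Language.Structure.RelMap LG ℕ S 2 FirstOrder.Language.adj ![u, v]

/-- The structure is a simple graph. -/
def Graph (S : LG.Structure ℕ) : Prop :=
  (∀ u, ¬ Adj S u u) ∧ ∀ u v, Adj S u v → Adj S v u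

/-- `H` is isomorphic to an induced subgraph of the graph `S`. -/
def Contains {V : Type} (H : SimpleGraph V) (S : LG.Structure ℕ) : Prop :=
  ∃ f : V → ℕ, Function.Injective f ∧ ∀ u v, Adj S (f u) (f v) ↔ H.Adj u v

/-- `H` is bipartite. -/
def Bipartite {V : Type} (H : SimpleGraph V) : Prop :=
  ∃ A : V → Prop, ∀ u v, H.Adj u v → (A u ↔ ¬ A v)

/-- The complement of `H` is bipartite. -/
def Cobipartite {V : Type} (H : SimpleGraph V) : Prop :=
  ∃ A : V → Prop, ∀ u v, u ≠ v → ¬ H.Adj u v → (A u ↔ ¬ A v)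

/-- `H` is a split graph: the union of a clique and an independent set. -/
def Split {V : Type} (H : SimpleGraph V) : Prop :=
  ∃ A : V → Prop, (∀ u v, A u → A v → u ≠ v → H.Adj u v) ∧ ∀ u v, ¬ A u → ¬ A v → ¬ H.Adj u v

/-- Vaught's conjecture for the first-order theories of graphs whose models omit all `H i` as
induced subgraphs. -/
def ForFree {ι : Type} {V : ι → Type} (H : ∀ i, SimpleGraph (V i)) : Prop :=
  ∀ T : LG.Theory, (∀ S : LG.Structure ℕ, @FirstOrder.Language.Theory.Model LG ℕ S T →
    Graph S ∧ ∀ i, ¬ Contains (H i) S) → Dichotomy LG T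

/-- The same for complete theories only. -/
def ForFreeComplete {ι : Type} {V : ι → Type} (H : ∀ i, SimpleGraph (V i)) : Prop :=
  ∀ T : LG.Theory, T.IsComplete →
    (∀ S : LG.Structure ℕ, @FirstOrder.Language.Theory.Model LG ℕ S T →
      Graph S ∧ ∀ i, ¬ Contains (H i) S) → Dichotomy LG T

section proof

open Pool.Agent.W889.VC Pool.Agent.TH686.FO

theorem adj_iff (S : LG.Structure ℕ) (u v : ℕ) : bs S u v = true ↔ Adj S u v := bs_iff S u v

theorem full_of (P : LG.Structure ℕ → Prop) (h : Comp P)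
    (hV : ∀ T : LG.Theory, T.IsComplete →
      (∀ S : LG.Structure ℕ, @FirstOrder.Language.Theory.Model LG ℕ S T → P S) →
        Dichotomy LG T) : FullConjecture :=
  fun L hL T => h.full (fun T h1 h2 => hV T h1 h2) L hL T

theorem graph_of {S : LG.Structure ℕ} (h : IsGraph (bs S)) : Graph S := by
  refine ⟨fun u hu => ?_, fun u v huv => ?_⟩
  · have := h.irrefl u
    rw [(adj_iff S u u).2 hu] at this
    exact absurd this (by decide)
  · exact (adj_iff S v u).1 (h.symm u v ((adj_iff S u v).2 huv))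

theorem of_graph {S : LG.Structure ℕ} (h : Graph S) : IsGraph (bs S) := by
  refine ⟨fun u => ?_, fun u v huv => ?_⟩
  · rw [Bool.eq_false_iff]
    exact fun hu => h.1 u ((adj_iff S u u).1 hu)
  · exact (adj_iff S v u).2 (h.2 u v ((adj_iff S u v).1 huv))

theorem pos {V : Type} {H : SimpleGraph V} (h : Nonempty (H ↪g SimpleGraph.pathGraph 4))
    (T : LG.Theory) (hT : ∀ S : LG.Structure ℕ, @FirstOrder.Language.Theory.Model LG ℕ S T →
      Graph S ∧ ¬ Contains H S) : Dichotomy LG T := by
  refine (Pool.Agent.W889.FO.vaughtF_iff LG T).2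
    (pos_fo (Pool.Agent.TH783.IS.pos h) T fun S hS => ?_)
  obtain ⟨h1, h2⟩ := hT S hS
  refine ⟨(of_graph h1).irrefl, (of_graph h1).symm, ?_⟩
  rintro ⟨f, hf1, hf2⟩
  exact h2 ⟨f, hf1, fun u v => (adj_iff S _ _).symm.trans (hf2 u v)⟩

theorem comp_bip {P : LG.Structure ℕ → Prop}
    (hP : ∀ S, Graph S → (∃ A : ℕ → Prop, ∀ u v, Adj S u v → (A u ↔ ¬ A v)) → P S) : Comp P := by
  refine fun hV T => red_bip (fun T' hT' => hV T' fun S hS => ?_) T
  obtain ⟨h1, A, hA⟩ := hT' S hS
  exact hP S (graph_of h1) ⟨A, fun u v huv => hA u v ((adj_iff S u v).2 huv)⟩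

theorem comp_cobip {P : LG.Structure ℕ → Prop}
    (hP : ∀ S, Graph S → (∃ A : ℕ → Prop, ∀ u v, u ≠ v → ¬ Adj S u v → (A u ↔ ¬ A v)) → P S) :
    Comp P := by
  refine fun hV T => red_cobip (fun T' hT' => hV T' fun S hS => ?_) T
  obtain ⟨h1, -, A, hA⟩ := hT' S hS
  refine hP S (graph_of h1) ⟨A, fun u v huv h => hA u v ?_⟩
  unfold comp
  rw [if_neg huv, Bool.not_eq_true', Bool.eq_false_iff]
  exact fun h2 => h ((adj_iff S u v).1 h2)

theorem comp_split {P : LG.Structure ℕ → Prop}
    (hP : ∀ S, Graph S → (∃ A : ℕ → Prop, (∀ u v, A u → A v → u ≠ v → Adj S u v) ∧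
      ∀ u v, ¬ A u → ¬ A v → ¬ Adj S u v) → P S) : Comp P := by
  refine fun hV T => red_split (fun T' hT' => hV T' fun S hS => ?_) T
  obtain ⟨h1, A, hA, hA'⟩ := hT' S hS
  refine hP S (graph_of h1) ⟨A, fun u v h2 h3 h4 => (adj_iff S u v).1 (hA u v h2 h3 h4),
    fun u v h2 h3 h4 => ?_⟩
  have := hA' u v h2 h3
  rw [(adj_iff S u v).2 h4] at this
  exact absurd this (by decide)

end proof

/-- **Theorem.** Let `H i` be graphs. (1) If some `H i` is an induced subgraph of the path with four
vertices then Vaught's conjecture, perfect-set form, holds for the first-order theories of graphs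
without induced subgraphs `H i`. (2) If no `H i` is bipartite, or no `H i` is the complement of a
bipartite graph, or no `H i` is a split graph, then Vaught's conjecture for the complete theories of
graphs without induced subgraphs `H i` is equivalent to Vaught's conjecture for all theories in all
countable languages. (3) If there is only one forbidden graph then (1) or (2) applies. -/
theorem result (ι : Type) (V : ι → Type) (H : ∀ i, SimpleGraph (V i)) :
    ((∃ i, Nonempty (H i ↪g SimpleGraph.pathGraph 4)) → ForFree H) ∧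
    (((∀ i, ¬ Bipartite (H i)) ∨ (∀ i, ¬ Cobipartite (H i)) ∨ (∀ i, ¬ Split (H i))) →
      (ForFreeComplete H ↔ FullConjecture)) ∧
    ∀ i, Nonempty (H i ↪g SimpleGraph.pathGraph 4) ∨ ¬ Bipartite (H i) ∨ ¬ Cobipartite (H i) ∨
      ¬ Split (H i) := by
  refine ⟨?_, fun h => ⟨fun hV => full_of _ ?_ hV,
    fun hV T _ _ => hV LG Pool.Agent.TH686.FO.countable_LGs T⟩, fun i => ?_⟩
  · rintro ⟨i, hi⟩ T hT
    exact pos hi T fun S hS => ⟨(hT S hS).1, (hT S hS).2 i⟩
  · rcases h with h | h | h
    · refine comp_bip fun S h1 h2 => ⟨h1, fun i => ?_⟩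
      rintro ⟨f, -, hf⟩
      obtain ⟨A, hA⟩ := h2
      exact h i ⟨fun u => A (f u), fun u v huv => hA _ _ ((hf u v).2 huv)⟩
    · refine comp_cobip fun S h1 h2 => ⟨h1, fun i => ?_⟩
      rintro ⟨f, hf1, hf⟩
      obtain ⟨A, hA⟩ := h2
      exact h i ⟨fun u => A (f u), fun u v huv h3 => hA _ _ (fun e => huv (hf1 e))
        fun h4 => h3 ((hf u v).1 h4)⟩
    · refine comp_split fun S h1 h2 => ⟨h1, fun i => ?_⟩
      rintro ⟨f, hf1, hf⟩
      obtain ⟨A, hA, hA'⟩ := h2
      exact h i ⟨fun u => A (f u), fun u v hu hv huv => (hf u v).1 (hA _ _ hu hv fun e => huv (hf1 e)),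
        fun u v hu hv h3 => hA' _ _ hu hv ((hf u v).2 h3)⟩
  · by_contra hcon
    rw [not_or, not_or, not_or, not_not, not_not, not_not] at hcon
    obtain ⟨h0, ⟨A, hA⟩, ⟨B, hB⟩, h3⟩ := hcon
    refine h0 (Pool.Agent.TH783.IS.emb ?_ ?_ h3)
    · rintro ⟨a, b, c, h1, h2, h4⟩
      have e1 := hA _ _ h1
      have e2 := hA _ _ h2
      have e3 := hA _ _ h4
      tauto
    · rintro ⟨a, b, c, n1, n2, n3, h1, h2, h4⟩
      have e1 := hB _ _ n1 h1
      have e2 := hB _ _ n2 h2
      have e3 := hB _ _ n3 h4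
      tauto

end Pool.Agent.Results.MP_5df2c5_lc.ForbiddenInducedSubgraphs
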