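import Pool.Agent.X180.Cob
import Pool.Agent.X180.NF
import Pool.Agent.TH686.FS.Six

set_option autoImplicit false

/-!
Vaught's conjecture, perfect-set form, for first-order theories of partial orders without a given
suborder `P`: it holds if `P` is a suborder of the order N, and it is equivalent to the full
conjecture in all other cases except if `P` is a suborder of N together with isolated elements (and
has at most one pair of comparable elements or at most five elements).
-/

namespace Pool.Agent.Results.MP_5df2c5_lc.ForbiddenSuborders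

open FirstOrder FirstOrder.Language

/-- Vaught's conjecture, perfect-set form, for the theory `T` in the language `L` (the body of the
frozen statement): the models with universe `ℕ` fall into countably many isomorphism classes, or
some continuous family of models, indexed by the Cantor space, consists of pairwise
non-isomorphic models. -/
def Dichotomy (L : FirstOrder.Language.{0, 0}) (T : L.Theory) : Prop :=
  (∃ g : ℕ → L.Structure ℕ, ∀ S : L.Structure ℕ,
      @FirstOrder.Language.Theory.Model L ℕ S T →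
        ∃ n : ℕ, Nonempty (@FirstOrder.Language.Equiv L ℕ ℕ S (g n))) ∨
  (∃ f : (ℕ → Bool) → L.Structure ℕ,
      (∀ x : ℕ → Bool, @FirstOrder.Language.Theory.Model L ℕ (f x) T) ∧
      (∀ x y : ℕ → Bool,
          Nonempty (@FirstOrder.Language.Equiv L ℕ ℕ (f x) (f y)) → x = y) ∧
      (∀ (n : ℕ) (R : L.Relations n) (a : Fin n → ℕ),
          IsClopen {x : ℕ → Bool | @FirstOrder.Language.Structure.RelMap L ℕ (f x) n R a}) ∧
      (∀ (n : ℕ) (F : L.Functions n) (a : Fin n → ℕ) (b : ℕ),
          IsOpen {x : ℕ → Bool | @FirstOrder.Language.Structure.funMap L ℕ (f x) n F a = b}))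

/-- Vaught's conjecture for all first-order theories in all countable languages (the frozen
statement). -/
def FullConjecture : Prop :=
  ∀ L : FirstOrder.Language.{0, 0}, Countable L.Symbols → ∀ T : L.Theory, Dichotomy L T

/-- The language with one binary relation symbol. -/
abbrev LG : FirstOrder.Language.{0, 0} := FirstOrder.Language.graph

/-- The binary relation of a structure. -/
def Lt (S : LG.Structure ℕ) (u v : ℕ) : Prop :=
  @FirstOrder.Language.Structure.RelMap LG ℕ S 2 FirstOrder.Language.adj ![u, v]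

/-- Strict partial orders. -/
def PartialOrder {V : Type} (r : V → V → Prop) : Prop :=
  (∀ u, ¬ r u u) ∧ ∀ u v w, r u v → r v w → r u w

/-- The order `r` is isomorphic to a suborder (induced) of the order `s`. -/
def Suborder {V W : Type} (r : V → V → Prop) (s : W → W → Prop) : Prop :=
  ∃ f : V → W, Function.Injective f ∧ ∀ u v, s (f u) (f v) ↔ r u v

/-- The order N: `0 < 1 > 2 < 3`. -/
def orderN (i j : Fin 4) : Prop := (i = 0 ∧ j = 1) ∨ (i = 2 ∧ j = 1) ∨ (i = 2 ∧ j = 3)

/-- The exceptional orders: for some set `A` which contains all comparable elements the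
restriction to `A` is isomorphic to a suborder of N, and there is at most one pair of comparable
elements, or there are at most five elements. -/
def Exceptional {V : Type} (r : V → V → Prop) : Prop :=
  (∃ A : Set V, (∀ u v, r u v → u ∈ A ∧ v ∈ A) ∧ Suborder (fun u v : A => r u v) orderN) ∧
    ((∀ a b c d, r a b → r c d → a = c ∧ b = d) ∨ ∃ g : V → Fin 5, Function.Injective g)

/-- The order is connected. -/
def Connected {V : Type} (r : V → V → Prop) : Prop :=
  ∀ u v, Relation.ReflTransGen (fun x y => r x y ∨ r y x) u v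

/-- Vaught's conjecture for the first-order theories whose models are partial orders without
suborder `r`. -/
def ForFree {V : Type} (r : V → V → Prop) : Prop :=
  ∀ T : LG.Theory, (∀ S : LG.Structure ℕ, @FirstOrder.Language.Theory.Model LG ℕ S T →
    PartialOrder (Lt S) ∧ ¬ Suborder r (Lt S)) → Dichotomy LG T

/-- The same for complete theories only. -/
def ForFreeComplete {V : Type} (r : V → V → Prop) : Prop :=
  ∀ T : LG.Theory, T.IsComplete →
    (∀ S : LG.Structure ℕ, @FirstOrder.Language.Theory.Model LG ℕ S T →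
      PartialOrder (Lt S) ∧ ¬ Suborder r (Lt S)) → Dichotomy LG T

section proof

open Pool.Agent.W889.VC Pool.Agent.TH686.FO Pool.Agent.TH686.FS Pool.Agent.X180.VC
open Pool.Agent.W889.FO.StE (gd)
open Pool.Agent.W889.SD (Big rel)

variable {V : Type} {r : V → V → Prop}

theorem embN_of (h : Suborder r orderN) : EmbN r := by
  obtain ⟨f, h1, h2⟩ := h
  exact ⟨f, h1, fun u v => (h2 u v).symm⟩

theorem of_embN (h : EmbN r) : Suborder r orderN := by
  obtain ⟨f, h1, h2⟩ := h
  exact ⟨f, h1, fun u v => (h2 u v).symm⟩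

theorem exc_of' (h : Exc6 r) : Exceptional r := by
  obtain ⟨⟨S, h1, f, h2, h3⟩, h4⟩ := h
  refine ⟨⟨S, h1, fun u => f u.1, fun u v huv => Subtype.ext (h2 u.2 v.2 huv), fun u v => ?_⟩, h4⟩
  exact (h3 u.1 u.2 v.1 v.2).symm

theorem of_exc (h : Exceptional r) : Exc r := by
  classical
  obtain ⟨⟨S, h1, f, h2, h3⟩, -⟩ := h
  refine ⟨S, h1, fun u => if hu : u ∈ S then f ⟨u, hu⟩ else 0, fun u hu v hv huv => ?_,
    fun u hu v hv => ?_⟩
  · simp only [dif_pos hu, dif_pos hv] at huv
    exact congrArg Subtype.val (h2 huv)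
  · simp only [dif_pos hu, dif_pos hv]
    exact (h3 ⟨u, hu⟩ ⟨v, hv⟩).symm

theorem po_of (h : PartialOrder r) : PO r := ⟨h.1, h.2⟩

theorem of_po (h : PO r) : PartialOrder r := ⟨h.irrefl, h.trans⟩

theorem pos (h : Suborder r orderN) : ForFree r := by
  intro T hT
  refine (Pool.Agent.W889.FO.vaughtF_iff LG T).2
    (pos_fo (vc_pfree (embN_of h)) T fun S hS => ?_)
  obtain ⟨h1, h2⟩ := hT S hS
  have e : rel (bs S) = Lt S := bs_fun S
  refine ⟨?_, ?_⟩
  · show PO (rel (bs S))
    rw [e]
    exact po_of h1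
  · rintro ⟨f, hf1, hf2⟩
    exact h2 ⟨f, hf1, fun u v => (bs_iff S _ _).symm.trans (hf2 u v)⟩

theorem full_of (P : LG.Structure ℕ → Prop) (h : Comp P)
    (hV : ∀ T : LG.Theory, T.IsComplete →
      (∀ S : LG.Structure ℕ, @FirstOrder.Language.Theory.Model LG ℕ S T → P S) →
        Dichotomy LG T) : FullConjecture :=
  fun L hL T => h.full (fun T h1 h2 => hV T h1 h2) L hL T

/-- the first class -/
theorem two_of {s : ℕ → ℕ → Prop} {b : ℕ → Prop} (h : ∀ u v, s u v → ¬ b u ∧ b v)
    (h3 : ∀ u x y z, ¬ b u → s u x → s u y → s u z → x = y ∨ x = z ∨ y = z) :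
    PO s ∧ (∀ a b c, s a b → ¬ s b c) ∧
      ∀ a b c d, s a b → s a c → s a d → b = c ∨ b = d ∨ c = d :=
  ⟨⟨fun u hu => (h u u hu).1 (h u u hu).2, fun u v w h1 h2 => absurd (h u v h1).2 (h v w h2).1⟩,
    fun a b c h1 h2 => (h b c h2).1 (h a b h1).2, fun a b c d h1 h2 h4 =>
      h3 a b c d (h a b h1).1 h1 h2 h4⟩

theorem wtw {S : LG.Structure ℕ} (h : WTw S) : PO (gd S) ∧ (∀ a b c, gd S a b → ¬ gd S b c) ∧
    ∀ a b c d, gd S a b → gd S a c → gd S a d → b = c ∨ b = d ∨ c = d := by
  refine two_of h.2 fun u x y z hu h1 h2 h4 => ?_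
  by_contra hn
  push Not at hn
  exact hu ⟨x, y, z, hn.1, hn.2.1, hn.2.2, Or.inl h1, Or.inl h2, Or.inl h4⟩

theorem wtd {S : LG.Structure ℕ} (h : WTd S) : PO (gd S) ∧ (∀ a b c, gd S a b → ¬ gd S b c) ∧
    ∀ a b c d, gd S b a → gd S c a → gd S d a → b = c ∨ b = d ∨ c = d := by
  have h1 : PO (fun u v => gd S v u) ∧ (∀ a b c, gd S b a → ¬ gd S c b) ∧
    ∀ a b c d, gd S b a → gd S c a → gd S d a → b = c ∨ b = d ∨ c = d := wtw (S := ofr _) h
  obtain ⟨h1, h2, h3⟩ := h1
  exact ⟨⟨h1.irrefl, fun u v w k1 k2 => h1.trans w v u k2 k1⟩, fun a b c k1 k2 => h2 c b a k2 k1, h3⟩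

theorem lt_iff (S : LG.Structure ℕ) (u v : ℕ) : Lt S u v ↔ gd S u v := Iff.rfl

theorem neg (hr : PO r) (h : ¬ Exceptional r) :
    Comp fun S => PartialOrder (Lt S) ∧ ¬ Suborder r (Lt S) := by
  by_cases o1 : O1 r
  · obtain ⟨a, b, c, h1, h2⟩ := o1
    refine fun hV T => red_two (fun T' hT' => hV T' fun S hS => ?_) T
    obtain ⟨k1, k2, k3⟩ := wtw (hT' S hS)
    refine ⟨of_po k1, ?_⟩
    rintro ⟨f, -, hf⟩
    exact k2 _ _ _ ((hf a b).2 h1) ((hf b c).2 h2)
  by_cases o2 : O2 r
  · obtain ⟨a, b, c, d, h1, h2, h3, n1, n2, n3⟩ := o2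
    refine fun hV T => red_two (fun T' hT' => hV T' fun S hS => ?_) T
    obtain ⟨k1, k2, k3⟩ := wtw (hT' S hS)
    refine ⟨of_po k1, ?_⟩
    rintro ⟨f, hi, hf⟩
    rcases k3 _ _ _ _ ((hf a b).2 h1) ((hf a c).2 h2) ((hf a d).2 h3) with h | h | h
    · exact n1 (hi h)
    · exact n2 (hi h)
    · exact n3 (hi h)
  by_cases o3 : O3 r
  · obtain ⟨a, b, c, d, h1, h2, h3, n1, n2, n3⟩ := o3
    refine fun hV T => red_dual (fun T' hT' => hV T' fun S hS => ?_) T
    obtain ⟨k1, k2, k3⟩ := wtd (hT' S hS)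
    refine ⟨of_po k1, ?_⟩
    rintro ⟨f, hi, hf⟩
    rcases k3 _ _ _ _ ((hf b a).2 h1) ((hf c a).2 h2) ((hf d a).2 h3) with h | h | h
    · exact n1 (hi h)
    · exact n2 (hi h)
    · exact n3 (hi h)
  by_cases o45 : O4 r ∨ O5 r
  · refine fun hV T => red_io (fun T' hT' => hV T' fun S hS => ?_) T
    obtain ⟨hio, A, hA1, hA2⟩ := hT' S hS
    have e : ∀ u v, bs S u v = true ↔ gd S u v := bs_iff S
    have hir : ∀ u, ¬ gd S u u := by
      intro u hu
      have := hio.irrefl u
      rw [(e u u).2 hu] at this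
      exact absurd this (by decide)
    have htwo : ∀ a b c d, gd S a b → gd S c d → gd S a d ∨ gd S c b := by
      intro a b c d k1 k2
      rcases hio.two a b c d ((e _ _).2 k1) ((e _ _).2 k2) with h | h
      · exact Or.inl ((e _ _).1 h)
      · exact Or.inr ((e _ _).1 h)
    have hpo : PO (gd S) := by
      refine ⟨hir, fun u v w k1 k2 => ?_⟩
      rcases htwo u v v w k1 k2 with h | h
      · exact h
      · exact absurd h (hir v)
    refine ⟨of_po hpo, ?_⟩
    rintro ⟨f, hi, hf⟩
    rcases o45 with ⟨a, b, c, d, k1, k2, k3, k4⟩ | ⟨a, a', b, b', n1, n2, k1, k2, k3, k4⟩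
    · rcases htwo _ _ _ _ ((hf a b).2 k1) ((hf c d).2 k2) with h | h
      · exact k3 ((hf _ _).1 h)
      · exact k4 ((hf _ _).1 h)
    · have na : ¬ A (f a) ∨ ¬ A (f a') := by
        by_contra hcon
        rw [not_or, not_not, not_not] at hcon
        rcases hA1 _ _ hcon.1 hcon.2 (fun h => n1 (hi h)) with h | h
        · exact o1 ⟨a, a', b, (hf _ _).1 ((e _ _).1 h), k3⟩
        · exact o1 ⟨a', a, b, (hf _ _).1 ((e _ _).1 h), k1⟩
      have nb : ¬ A (f b) ∨ ¬ A (f b') := by
        by_contra hcon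
        rw [not_or, not_not, not_not] at hcon
        rcases hA1 _ _ hcon.1 hcon.2 (fun h => n2 (hi h)) with h | h
        · exact o1 ⟨a, b, b', k1, (hf _ _).1 ((e _ _).1 h)⟩
        · exact o1 ⟨a, b', b, k2, (hf _ _).1 ((e _ _).1 h)⟩
      rcases na with na | na <;> rcases nb with nb | nb
      · exact hA2 _ _ na nb ((e _ _).2 ((hf _ _).2 k1))
      · exact hA2 _ _ na nb ((e _ _).2 ((hf _ _).2 k2))
      · exact hA2 _ _ na nb ((e _ _).2 ((hf _ _).2 k3))
      · exact hA2 _ _ na nb ((e _ _).2 ((hf _ _).2 k4))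
  rw [not_or] at o45
  have hexc := exc_of hr o1 o2 o3 o45.1 o45.2
  by_cases o68 : O6 r ∨ O8 r
  · refine fun hV T => red_cob (fun T' hT' => hV T' fun S hS => ?_) T
    obtain ⟨k1, k2, k3, k4⟩ := (hT' S hS).cob
    refine ⟨of_po k1, ?_⟩
    rintro ⟨f, hi, hf⟩
    rcases o68 with h | h
    · exact k3 (h.map hi hf)
    · exact k4 (h.map hi hf)
  rw [not_or] at o68
  by_cases o7 : O7 r
  · refine fun hV T => red_cobd (fun T' hT' => hV T' fun S hS => ?_) T
    have h1 : PO (fun u v => gd S v u) ∧ (∀ a b c, gd S b a → ¬ gd S c b) ∧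
      ¬ O6 (fun u v => gd S v u) ∧ ¬ O8 (fun u v => gd S v u) := (hT' S hS).cob
    obtain ⟨k1, k2, k3, k4⟩ := h1
    refine ⟨⟨k1.irrefl, fun u v w j1 j2 => k1.trans w v u j2 j1⟩, ?_⟩
    rintro ⟨f, hi, hf⟩
    exact k3 (O6.map (r := fun u v => r v u) hi (fun u v => hf v u) o7)
  exact absurd (exc_of' (exc6_of hexc o68.1 o7 o68.2)) h

end proof

/-- **Theorem.** Let `r` be a strict partial order on a set `V`. (1) If `r` is isomorphic to a
suborder of N then Vaught's conjecture, perfect-set form, holds for the first-order theories of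
partial orders without suborder `r`. (2) If `r` is not exceptional then Vaught's conjecture for the
complete theories of partial orders without suborder `r` is equivalent to Vaught's conjecture for all
theories in all countable languages. (3) If `r` is connected then (1) or (2) applies. -/
theorem result (V : Type) (r : V → V → Prop) (hr : PartialOrder r) :
    (Suborder r orderN → ForFree r) ∧
    (¬ Exceptional r → (ForFreeComplete r ↔ FullConjecture)) ∧
    (Connected r → Suborder r orderN ∨ ¬ Exceptional r) := by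
  refine ⟨pos, fun h => ⟨fun hV => full_of _ (neg (po_of hr) h) hV,
    fun hV T _ _ => hV LG Pool.Agent.TH686.FO.countable_LGs T⟩, fun hc => ?_⟩
  by_cases h : Exceptional r
  · exact Or.inl (of_embN (Pool.Agent.TH686.FS.emb_of_conn (of_exc h) hc))
  · exact Or.inr h

end Pool.Agent.Results.MP_5df2c5_lc.ForbiddenSuborders
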