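import Pool.Agent.TH783.FC.Itp
import Pool.Agent.TH783.MD.Emb

set_option autoImplicit false

/-!
Vaught's conjecture, perfect-set form, for first-order theories of graphs whose finite induced
subgraphs belong to a given hereditary class `C` of finite graphs: it is equivalent to the full
conjecture if `C` contains, for some `r ≥ 1` and some flip of the layers, all flipped star
`r`-crossings, or all flipped clique `r`-crossings, or all flipped half-graph `r`-crossings, or
if `C` contains all comparability grids.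
-/

namespace Pool.Agent.Results.MP_5df2c5_lc.MonadicIndependence

open FirstOrder FirstOrder.Language

/-- Vaught's conjecture, perfect-set form, for the theory `T` in the language `L` (the body of the
frozen statement): the models with universe `ℕ` fall into countably many isomorphism classes, or
some continuous family of models, indexed by the Cantor space, consists of pairwise
non-isomorphic models. -/
def Dichotomy (L : FirstOrder.Language.{0, 0}) (T : L.Theory) : Prop :=
  (∃ g : ℕ → L.Structure ℕ, ∀ S : L.Structure ℕ,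
      @FirstOrder.Language.Theory.Model L ℕ S T →
        ∃ n : ℕ, Nonempty (@FirstOrder.Language.Equiv L ℕ ℕ S (g n))) ∨
  (∃ f : (ℕ → Bool) → L.Structure ℕ,
      (∀ x : ℕ → Bool, @FirstOrder.Language.Theory.Model L ℕ (f x) T) ∧
      (∀ x y : ℕ → Bool,
          Nonempty (@FirstOrder.Language.Equiv L ℕ ℕ (f x) (f y)) → x = y) ∧
      (∀ (n : ℕ) (R : L.Relations n) (a : Fin n → ℕ),
          IsClopen {x : ℕ → Bool | @FirstOrder.Language.Structure.RelMap L ℕ (f x) n R a}) ∧
      (∀ (n : ℕ) (F : L.Functions n) (a : Fin n → ℕ) (b : ℕ),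
          IsOpen {x : ℕ → Bool | @FirstOrder.Language.Structure.funMap L ℕ (f x) n F a = b}))

/-- Vaught's conjecture for all first-order theories in all countable languages (the frozen
statement). -/
def FullConjecture : Prop :=
  ∀ L : FirstOrder.Language.{0, 0}, Countable L.Symbols → ∀ T : L.Theory, Dichotomy L T

/-- The language with one binary relation symbol. -/
abbrev LG : FirstOrder.Language.{0, 0} := FirstOrder.Language.graph

/-- The binary relation of a structure. -/
def Adj (S : LG.Structure ℕ) (u v : ℕ) : Prop :=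
  @FirstOrder.Language.Structure.RelMap LG ℕ S 2 FirstOrder.Language.adj ![u, v]

/-- The structure is a simple graph. -/
def Graph (S : LG.Structure ℕ) : Prop :=
  (∀ u, ¬ Adj S u u) ∧ ∀ u v, Adj S u v → Adj S v u

/-- `H` is isomorphic to an induced subgraph of the graph `S`. -/
def Contains {V : Type} (H : SimpleGraph V) (S : LG.Structure ℕ) : Prop :=
  ∃ f : V → ℕ, Function.Injective f ∧ ∀ u v, Adj S (f u) (f v) ↔ H.Adj u v

/-- The class `C` of graphs is closed under isomorphisms and induced subgraphs. -/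
def Hereditary (C : ∀ V : Type, SimpleGraph V → Prop) : Prop :=
  ∀ (V W : Type) (G : SimpleGraph V) (H : SimpleGraph W), Nonempty (H ↪g G) → C V G → C W H

/-- `S` is a graph and all its finite induced subgraphs are in `C`. -/
def LocallyIn (C : ∀ V : Type, SimpleGraph V → Prop) (S : LG.Structure ℕ) : Prop :=
  Graph S ∧ ∀ (n : ℕ) (H : SimpleGraph (Fin n)), Contains H S → C (Fin n) H

/-- The vertices of crossings: the roots `row i` and `col j`, and for all `i`, `j` a path
`pt i j 0, ..., pt i j (r - 1)`. -/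
inductive Vertex (ι : Type) (r : ℕ) : Type
  | row (i : ι) : Vertex ι r
  | col (j : ι) : Vertex ι r
  | pt (i j : ι) (t : Fin r) : Vertex ι r

/-- The `r + 2` layers of a crossing. -/
def layer {ι : Type} {r : ℕ} : Vertex ι r → ℕ
  | .row _ => 0
  | .pt _ _ t => t + 1
  | .col _ => r + 1

/-- Star crossings (each edge in one direction): the path `pt i j` joins `row i` and `col j`. -/
def star {ι : Type} {r : ℕ} : Vertex ι r → Vertex ι r → Prop
  | .row i, .pt i' _ t => i = i' ∧ (t : ℕ) = 0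
  | .pt i j t, .pt i' j' t' => i = i' ∧ j = j' ∧ (t' : ℕ) = t + 1
  | .pt _ j t, .col j' => j = j' ∧ (t : ℕ) + 1 = r
  | _, _ => False

/-- Clique crossings (loops are to be ignored): the neighbours of each root are adjacent. -/
def clique {ι : Type} {r : ℕ} : Vertex ι r → Vertex ι r → Prop
  | .row i, .pt i' _ t => i = i' ∧ (t : ℕ) = 0
  | .pt i j t, .pt i' j' t' => (i = i' ∧ j = j' ∧ (t' : ℕ) = t + 1) ∨
      (i = i' ∧ (t : ℕ) = 0 ∧ (t' : ℕ) = 0) ∨ (j = j' ∧ (t : ℕ) + 1 = r ∧ (t' : ℕ) + 1 = r)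
  | .pt _ j t, .col j' => j = j' ∧ (t : ℕ) + 1 = r
  | _, _ => False

/-- Half-graph crossings: `row i` is adjacent to the first vertex of the path `pt i' j'` if
`i ≤ i'`, and `col j` to the last one if `j ≤ j'`. -/
def half {ι : Type} [LinearOrder ι] {r : ℕ} : Vertex ι r → Vertex ι r → Prop
  | .row i, .pt i' _ t => i ≤ i' ∧ (t : ℕ) = 0
  | .pt i j t, .pt i' j' t' => i = i' ∧ j = j' ∧ (t' : ℕ) = t + 1
  | .pt _ j t, .col j' => j' ≤ j ∧ (t : ℕ) + 1 = r
  | _, _ => False

/-- The graph with the edges `E`, with the pairs of vertices in layers `a` and `b` flipped if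
`f a b`. -/
def flipped {ι : Type} {r : ℕ} (E : Vertex ι r → Vertex ι r → Prop) (f : ℕ → ℕ → Prop)
    (hf : ∀ a b, f a b → f b a) : SimpleGraph (Vertex ι r) where
  Adj u v := u ≠ v ∧ ¬ ((E u v ∨ E v u) ↔ f (layer u) (layer v))
  symm := ⟨fun u v h => ⟨h.1.symm, fun h' => h.2 (by
    rw [or_comm, h']
    exact ⟨hf _ _, hf _ _⟩)⟩⟩
  loopless := ⟨fun u h => h.1 rfl⟩

/-- The comparability grid. -/
def grid (ι : Type) [LinearOrder ι] : SimpleGraph (ι × ι) where
  Adj u v := u ≠ v ∧ (u.1 = v.1 ∨ u.2 = v.2 ∨ (u.1 < v.1 ↔ u.2 < v.2))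
  symm := ⟨fun u v h => ⟨h.1.symm, by
    rcases h.2 with h' | h' | h'
    · exact Or.inl h'.symm
    · exact Or.inr (Or.inl h'.symm)
    · rcases lt_trichotomy u.1 v.1 with k | k | k
      · exact Or.inr (Or.inr (iff_of_false k.asymm (h'.1 k).asymm))
      · exact Or.inl k.symm
      · rcases lt_trichotomy u.2 v.2 with l | l | l
        · exact absurd (h'.2 l) k.asymm
        · exact Or.inr (Or.inl l.symm)
        · exact Or.inr (Or.inr (iff_of_true k l))⟩⟩
  loopless := ⟨fun u h => h.1 rfl⟩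

/-- The class `C` contains, for some `r ≥ 1` and some flip of the layers, the flipped star
`r`-crossings of all orders `n`, or the flipped clique `r`-crossings of all orders, or the flipped
half-graph `r`-crossings of all orders, or `C` contains the comparability grids of all orders. -/
def HasPatterns (C : ∀ V : Type, SimpleGraph V → Prop) : Prop :=
  (∃ (r : ℕ) (f : ℕ → ℕ → Prop) (hf : ∀ a b, f a b → f b a), 1 ≤ r ∧
    ((∀ n : ℕ, C (Vertex (Fin n) r) (flipped star f hf)) ∨
      (∀ n : ℕ, C (Vertex (Fin n) r) (flipped clique f hf)) ∨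
        ∀ n : ℕ, C (Vertex (Fin n) r) (flipped half f hf))) ∨
  ∀ n : ℕ, C (Fin n × Fin n) (grid (Fin n))

section proof

open Pool.Agent.W889.FO.StE (gd)

/-- renaming of the indices -/
def Vertex.map {ι κ : Type} {r : ℕ} (φ : ι → κ) : Vertex ι r → Vertex κ r
  | .row i => .row (φ i)
  | .col j => .col (φ j)
  | .pt i j t => .pt (φ i) (φ j) t

/-- all indices are in `P` -/
def Vertex.In {ι : Type} {r : ℕ} (P : ι → Prop) : Vertex ι r → Prop
  | .row i => P i
  | .col j => P j
  | .pt i j _ => P i ∧ P j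

theorem layer_map {ι κ : Type} {r : ℕ} (φ : ι → κ) (u : Vertex ι r) :
    layer (u.map φ) = layer u := by
  cases u <;> rfl

theorem map_inj {ι κ : Type} {r : ℕ} {φ : ι → κ} {P : ι → Prop}
    (h : ∀ x y, P x → P y → φ x = φ y → x = y) {u v : Vertex ι r} (hu : u.In P) (hv : v.In P)
    (huv : u.map φ = v.map φ) : u = v := by
  cases u with
  | row i =>
    cases v with
    | row i' =>
      simp only [Vertex.map, Vertex.row.injEq] at huv
      rw [h _ _ hu hv huv]
    | col j' => simp [Vertex.map] at huv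
    | pt i' j' t' => simp [Vertex.map] at huv
  | col j =>
    cases v with
    | row i' => simp [Vertex.map] at huv
    | col j' =>
      simp only [Vertex.map, Vertex.col.injEq] at huv
      rw [h _ _ hu hv huv]
    | pt i' j' t' => simp [Vertex.map] at huv
  | pt i j t =>
    cases v with
    | row i' => simp [Vertex.map] at huv
    | col j' => simp [Vertex.map] at huv
    | pt i' j' t' =>
      simp only [Vertex.map, Vertex.pt.injEq] at huv
      obtain ⟨h1, h2, h3⟩ := huv
      rw [h _ _ hu.1 hv.1 h1, h _ _ hu.2 hv.2 h2, h3]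

theorem star_map {ι κ : Type} {r : ℕ} {φ : ι → κ} {P : ι → Prop}
    (h : ∀ x y, P x → P y → φ x = φ y → x = y) {u v : Vertex ι r} (hu : u.In P) (hv : v.In P) :
    star (u.map φ) (v.map φ) ↔ star u v := by
  have e : ∀ x y, P x → P y → (φ x = φ y ↔ x = y) := fun x y hx hy =>
    ⟨h x y hx hy, fun k => by rw [k]⟩
  cases u <;> cases v <;> simp only [Vertex.map, star, Vertex.In] at * <;>
    first
      | rfl
      | (simp only [e _ _ hu hv.1])
      | (simp only [e _ _ hu.2 hv])
      | (simp only [e _ _ hu.1 hv.1, e _ _ hu.2 hv.2])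

theorem clique_map {ι κ : Type} {r : ℕ} {φ : ι → κ} {P : ι → Prop}
    (h : ∀ x y, P x → P y → φ x = φ y → x = y) {u v : Vertex ι r} (hu : u.In P) (hv : v.In P) :
    clique (u.map φ) (v.map φ) ↔ clique u v := by
  have e : ∀ x y, P x → P y → (φ x = φ y ↔ x = y) := fun x y hx hy =>
    ⟨h x y hx hy, fun k => by rw [k]⟩
  cases u <;> cases v <;> simp only [Vertex.map, clique, Vertex.In] at * <;>
    first
      | rfl
      | (simp only [e _ _ hu hv.1])
      | (simp only [e _ _ hu.2 hv])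
      | (simp only [e _ _ hu.1 hv.1, e _ _ hu.2 hv.2])

theorem half_map {ι κ : Type} [LinearOrder ι] [LinearOrder κ] {r : ℕ} {φ : ι → κ} {P : ι → Prop}
    (h : ∀ x y, P x → P y → (φ x ≤ φ y ↔ x ≤ y)) {u v : Vertex ι r} (hu : u.In P) (hv : v.In P) :
    half (u.map φ) (v.map φ) ↔ half u v := by
  have e : ∀ x y, P x → P y → (φ x = φ y ↔ x = y) := fun x y hx hy =>
    ⟨fun k => le_antisymm ((h x y hx hy).1 k.le) ((h y x hy hx).1 k.ge), fun k => by rw [k]⟩
  cases u <;> cases v <;> simp only [Vertex.map, half, Vertex.In] at * <;>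
    first
      | rfl
      | (simp only [h _ _ hu hv.1])
      | (simp only [h _ _ hv hu.2])
      | (simp only [e _ _ hu.1 hv.1, e _ _ hu.2 hv.2])

/-- the rank in a finite set -/
theorem exists_rank {ι : Type} [LinearOrder ι] (F : Finset ι) :
    ∃ φ : ι → Fin (F.card + 1), ∀ x y, x ∈ F → y ∈ F → (φ x ≤ φ y ↔ x ≤ y) := by
  classical
  refine ⟨fun x => ⟨(F.filter (· < x)).card, Nat.lt_succ_of_le (Finset.card_le_card
    (Finset.filter_subset _ _))⟩, fun x y hx hy => ?_⟩
  rw [Fin.mk_le_mk]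
  constructor
  · intro h
    by_contra hxy
    rw [not_le] at hxy
    have h1 : F.filter (· < y) ⊂ F.filter (· < x) := by
      refine ⟨fun z hz => ?_, fun hsub => ?_⟩
      · rw [Finset.mem_filter] at hz ⊢
        exact ⟨hz.1, hz.2.trans hxy⟩
      · have h2 : y ∈ F.filter (· < x) := Finset.mem_filter.2 ⟨hy, hxy⟩
        exact lt_irrefl y (Finset.mem_filter.1 (hsub h2)).2
    exact absurd (Finset.card_lt_card h1) (not_lt.2 h)
  · intro h
    refine Finset.card_le_card fun z hz => ?_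
    rw [Finset.mem_filter] at hz ⊢
    exact ⟨hz.1, lt_of_lt_of_le hz.2 h⟩

/-- the indices of finitely many vertices -/
theorem exists_indices {ι : Type} [LinearOrder ι] {r n : ℕ} (g : Fin n → Vertex ι r) :
    ∃ F : Finset ι, ∀ i, (g i).In (· ∈ F) := by
  classical
  let ix : Vertex ι r → Finset ι := fun u => match u with
    | .row i => {i}
    | .col j => {j}
    | .pt i j _ => {i, j}
  refine ⟨Finset.univ.biUnion fun i => ix (g i), fun i => ?_⟩
  have hsub : ix (g i) ⊆ Finset.univ.biUnion fun i => ix (g i) :=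
    Finset.subset_biUnion_of_mem (fun i => ix (g i)) (Finset.mem_univ i)
  have key : ∀ u : Vertex ι r, ix u ⊆ Finset.univ.biUnion (fun i => ix (g i)) →
      u.In (· ∈ Finset.univ.biUnion fun i => ix (g i)) := by
    intro u hu
    cases u with
    | row i => exact hu (Finset.mem_singleton_self i)
    | col j => exact hu (Finset.mem_singleton_self j)
    | pt i j t => exact ⟨hu (Finset.mem_insert_self _ _),
        hu (Finset.mem_insert_of_mem (Finset.mem_singleton_self j))⟩
  exact key _ hsub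

/-- finite induced subgraphs of infinite crossings -/
theorem fin_flipped {ι : Type} [LinearOrder ι] {r : ℕ} (f : ℕ → ℕ → Prop)
    (hf : ∀ a b, f a b → f b a) (E : Vertex ι r → Vertex ι r → Prop)
    (E' : ∀ m : ℕ, Vertex (Fin m) r → Vertex (Fin m) r → Prop)
    (hE : ∀ (m : ℕ) (φ : ι → Fin m) (P : ι → Prop),
      (∀ x y, P x → P y → (φ x ≤ φ y ↔ x ≤ y)) → ∀ u v : Vertex ι r, u.In P → v.In P →
        (E' m (u.map φ) (v.map φ) ↔ E u v)) {S : LG.Structure ℕ} (g : ℕ → Vertex ι r)
    (hg : Function.Injective g)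
    (hS : ∀ u v, Adj S u v ↔ g u ≠ g v ∧ ¬ ((E (g u) (g v) ∨ E (g v) (g u)) ↔
      f (layer (g u)) (layer (g v)))) {n : ℕ} (H : SimpleGraph (Fin n)) (hH : Contains H S) :
    ∃ m : ℕ, Nonempty (H ↪g flipped (E' m) f hf) := by
  obtain ⟨k, hk, hk'⟩ := hH
  obtain ⟨F, hF⟩ := exists_indices fun i => g (k i)
  obtain ⟨φ, hφ⟩ := exists_rank F
  have hφ' : ∀ x y, x ∈ F → y ∈ F → φ x = φ y → x = y := fun x y hx hy h =>
    le_antisymm ((hφ x y hx hy).1 h.le) ((hφ y x hy hx).1 h.ge)
  refine ⟨F.card + 1, ⟨⟨⟨fun i => (g (k i)).map φ, fun i j hij =>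
    hk (hg (map_inj hφ' (hF i) (hF j) hij))⟩, ?_⟩⟩⟩
  intro i j
  rw [← hk' i j, hS]
  show ((g (k i)).map φ ≠ (g (k j)).map φ ∧ ¬ ((E' _ ((g (k i)).map φ) ((g (k j)).map φ) ∨
    E' _ ((g (k j)).map φ) ((g (k i)).map φ)) ↔ f (layer ((g (k i)).map φ))
      (layer ((g (k j)).map φ)))) ↔ _
  rw [hE _ φ (· ∈ F) hφ _ _ (hF i) (hF j), hE _ φ (· ∈ F) hφ _ _ (hF j) (hF i), layer_map,
    layer_map]
  refine and_congr_left fun _ => not_congr ⟨fun h => map_inj hφ' (hF i) (hF j) h,
    fun h => by rw [h]⟩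

theorem fin_grid {S : LG.Structure ℕ} (g : ℕ → ℚ × ℚ) (hg : Function.Injective g)
    (hS : ∀ u v, Adj S u v ↔ g u ≠ g v ∧ ((g u).1 = (g v).1 ∨ (g u).2 = (g v).2 ∨
      ((g u).1 < (g v).1 ↔ (g u).2 < (g v).2))) {n : ℕ} (H : SimpleGraph (Fin n))
    (hH : Contains H S) : ∃ m : ℕ, Nonempty (H ↪g grid (Fin m)) := by
  classical
  obtain ⟨k, hk, hk'⟩ := hH
  let F : Finset ℚ := (Finset.univ.image fun i => (g (k i)).1) ∪
    Finset.univ.image fun i => (g (k i)).2
  have hF1 : ∀ i, (g (k i)).1 ∈ F := fun i => Finset.mem_union_left _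
    (Finset.mem_image_of_mem _ (Finset.mem_univ i))
  have hF2 : ∀ i, (g (k i)).2 ∈ F := fun i => Finset.mem_union_right _
    (Finset.mem_image_of_mem _ (Finset.mem_univ i))
  obtain ⟨φ, hφ⟩ := exists_rank F
  have hφ' : ∀ x y, x ∈ F → y ∈ F → (φ x = φ y ↔ x = y) := fun x y hx hy =>
    ⟨fun h => le_antisymm ((hφ x y hx hy).1 h.le) ((hφ y x hy hx).1 h.ge), fun h => by rw [h]⟩
  have hφ2 : ∀ x y, x ∈ F → y ∈ F → (φ x < φ y ↔ x < y) := fun x y hx hy => by
    rw [← not_le, ← not_le, hφ y x hy hx]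
  have hin : ∀ i j, ((φ (g (k i)).1, φ (g (k i)).2) : Fin (F.card + 1) × Fin (F.card + 1)) =
      (φ (g (k j)).1, φ (g (k j)).2) ↔ g (k i) = g (k j) := by
    intro i j
    rw [Prod.mk.injEq, hφ' _ _ (hF1 i) (hF1 j), hφ' _ _ (hF2 i) (hF2 j), ← Prod.ext_iff]
  refine ⟨F.card + 1, ⟨⟨⟨fun i => (φ (g (k i)).1, φ (g (k i)).2), fun i j hij =>
    hk (hg ((hin i j).1 hij))⟩, ?_⟩⟩⟩
  intro i j
  rw [← hk' i j, hS]
  show ((φ (g (k i)).1, φ (g (k i)).2) ≠ (φ (g (k j)).1, φ (g (k j)).2) ∧
    (φ (g (k i)).1 = φ (g (k j)).1 ∨ φ (g (k i)).2 = φ (g (k j)).2 ∨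
      (φ (g (k i)).1 < φ (g (k j)).1 ↔ φ (g (k i)).2 < φ (g (k j)).2))) ↔ _
  rw [hφ' _ _ (hF1 i) (hF1 j), hφ' _ _ (hF2 i) (hF2 j), hφ2 _ _ (hF1 i) (hF1 j),
    hφ2 _ _ (hF2 i) (hF2 j), ne_eq, hin]

/-- conversion of vertices -/
def cv {r : ℕ} : Pool.Agent.TH783.FC.Vx r → Vertex ℕ r
  | .row i => .row i
  | .col j => .col j
  | .pt i j t => .pt i j t

theorem cv_inj {r : ℕ} : Function.Injective (cv (r := r)) := by
  intro u v h
  cases u <;> cases v <;> simp_all [cv]

theorem cv_lay {r : ℕ} (u : Pool.Agent.TH783.FC.Vx r) : layer (cv u) = u.lay := by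
  cases u <;> rfl

theorem cv_star {r : ℕ} (u v : Pool.Agent.TH783.FC.Vx r) :
    star (cv u) (cv v) ↔ u.edge false v := by
  cases u <;> cases v <;> simp [cv, star, Pool.Agent.TH783.FC.Vx.edge]

theorem cv_clique {r : ℕ} (u v : Pool.Agent.TH783.FC.Vx r) :
    clique (cv u) (cv v) ↔ u.edge true v := by
  cases u <;> cases v <;> simp [cv, clique, Pool.Agent.TH783.FC.Vx.edge]

/-- conversion of vertices -/
def cw {r : ℕ} : Pool.Agent.TH783.MD.Vx ℚ r → Vertex ℚ r
  | .row i => .row i
  | .col j => .col j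
  | .pt i j t => .pt i j t

theorem cw_inj {r : ℕ} : Function.Injective (cw (r := r)) := by
  intro u v h
  cases u <;> cases v <;> simp_all [cw]

theorem cw_lay {r : ℕ} (u : Pool.Agent.TH783.MD.Vx ℚ r) : layer (cw u) = u.lay := by
  cases u <;> rfl

theorem cw_half {r : ℕ} (u v : Pool.Agent.TH783.MD.Vx ℚ r) :
    half (cw u) (cw v) ↔ Pool.Agent.TH783.MD.he u v := by
  cases u <;> cases v <;> simp [cw, half, Pool.Agent.TH783.MD.he]

theorem fc_full {C : ∀ V : Type, SimpleGraph V → Prop} (hC : Hereditary C) {r : ℕ} (hr : 1 ≤ r)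
    {f : ℕ → ℕ → Prop} (hf : ∀ a b, f a b → f b a) (s : Bool)
    (E : ∀ ι : Type, Vertex ι r → Vertex ι r → Prop)
    (hE : ∀ (ι κ : Type) (φ : ι → κ) (P : ι → Prop), (∀ x y, P x → P y → φ x = φ y → x = y) →
      ∀ u v : Vertex ι r, u.In P → v.In P → (E κ (u.map φ) (v.map φ) ↔ E ι u v))
    (hs : ∀ u v : Pool.Agent.TH783.FC.Vx r, E ℕ (cv u) (cv v) ↔ u.edge s v)
    (hP : ∀ n : ℕ, C (Vertex (Fin n) r) (flipped (E (Fin n)) f hf))
    (hV : ∀ T : LG.Theory, T.IsComplete → (∀ S : LG.Structure ℕ,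
      @FirstOrder.Language.Theory.Model LG ℕ S T → LocallyIn C S) → Dichotomy LG T) :
    FullConjecture := by
  intro L hL T
  refine Pool.Agent.TH783.FC.main (s := s) hr hf (fun T' h1 h2 => hV T' h1 fun S hS => ?_) L hL T
  have h3 := h2 S hS
  refine ⟨⟨fun u => Pool.Agent.TH783.FC.sub_irr h3 u,
    fun u v huv => Pool.Agent.TH783.FC.sub_symm h3 hf huv⟩, fun n H hH => ?_⟩
  obtain ⟨g, hg1, hg2⟩ := h3
  obtain ⟨m, hm⟩ := fin_flipped f hf (E ℕ) (fun m => E (Fin m))
    (fun m φ P h u v hu hv => hE ℕ (Fin m) φ P (fun x y hx hy hxy =>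
      le_antisymm ((h x y hx hy).1 hxy.le) ((h y x hy hx).1 hxy.ge)) u v hu hv)
    (fun u => cv (g u)) (cv_inj.comp hg1) (fun u v => by
      rw [hs, hs, cv_lay, cv_lay, cv_inj.ne_iff]
      exact hg2 u v) H hH
  exact hC _ _ _ _ hm (hP m)

theorem half_full {C : ∀ V : Type, SimpleGraph V → Prop} (hC : Hereditary C) {r : ℕ} (hr : 1 ≤ r)
    {f : ℕ → ℕ → Prop} (hf : ∀ a b, f a b → f b a)
    (hP : ∀ n : ℕ, C (Vertex (Fin n) r) (flipped half f hf))
    (hV : ∀ T : LG.Theory, T.IsComplete → (∀ S : LG.Structure ℕ,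
      @FirstOrder.Language.Theory.Model LG ℕ S T → LocallyIn C S) → Dichotomy LG T) :
    FullConjecture := by
  intro L hL T
  refine Pool.Agent.TH783.MD.main (s := false) hr hf (by simp)
    (fun T' h1 h2 => hV T' h1 fun S hS => ?_) L hL T
  obtain ⟨g, hg1, hg2⟩ := (h2 S hS).half hr
  have hadj : ∀ u v, Adj S u v ↔ cw (g u) ≠ cw (g v) ∧
      ¬ ((half (cw (g u)) (cw (g v)) ∨ half (cw (g v)) (cw (g u))) ↔
        f (layer (cw (g u))) (layer (cw (g v)))) := fun u v => by
    rw [cw_half, cw_half, cw_lay, cw_lay, cw_inj.ne_iff]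
    exact hg2 u v
  refine ⟨⟨fun u hu => ((hadj u u).1 hu).1 rfl, fun u v huv => ?_⟩, fun n H hH => ?_⟩
  · rw [hadj] at huv ⊢
    refine ⟨huv.1.symm, fun h => huv.2 ?_⟩
    rw [or_comm, h]
    exact ⟨hf _ _, hf _ _⟩
  · obtain ⟨m, hm⟩ := fin_flipped f hf half (fun m => half)
      (fun m φ P h u v hu hv => half_map h hu hv)
      (fun u => cw (g u)) (cw_inj.comp hg1) hadj H hH
    exact hC _ _ _ _ hm (hP m)

theorem grid_full {C : ∀ V : Type, SimpleGraph V → Prop} (hC : Hereditary C)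
    (hP : ∀ n : ℕ, C (Fin n × Fin n) (grid (Fin n)))
    (hV : ∀ T : LG.Theory, T.IsComplete → (∀ S : LG.Structure ℕ,
      @FirstOrder.Language.Theory.Model LG ℕ S T → LocallyIn C S) → Dichotomy LG T) :
    FullConjecture := by
  intro L hL T
  refine Pool.Agent.TH783.MD.main (r := 1) (s := true) (f := fun _ _ => False) le_rfl
    (fun _ _ h => h) (fun _ => rfl) (fun T' h1 h2 => hV T' h1 fun S hS => ?_) L hL T
  obtain ⟨g, hg1, hg2⟩ := (h2 S hS).grid
  have hadj : ∀ u v, Adj S u v ↔ g u ≠ g v ∧ ((g u).1 = (g v).1 ∨ (g u).2 = (g v).2 ∨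
      ((g u).1 < (g v).1 ↔ (g u).2 < (g v).2)) := fun u v => hg2 u v
  refine ⟨⟨fun u hu => ((hadj u u).1 hu).1 rfl, fun u v huv => ?_⟩, fun n H hH => ?_⟩
  · rw [hadj] at huv ⊢
    exact (grid ℚ).symm.symm _ _ huv
  · obtain ⟨m, hm⟩ := fin_grid g hg1 hadj H hH
    exact hC _ _ _ _ hm (hP m)

end proof

/-- **Theorem.** Let `C` be a class of graphs which is closed under isomorphisms and induced
subgraphs, and which contains the flipped star, clique or half-graph `r`-crossings of all orders,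
for some `r ≥ 1` and some flip of the layers, or the comparability grids of all orders. Then
Vaught's conjecture, perfect-set form, for the complete first-order theories of graphs all of whose
finite induced subgraphs are in `C` is equivalent to Vaught's conjecture for all theories in all
countable languages. -/
theorem result (C : ∀ V : Type, SimpleGraph V → Prop) (hC : Hereditary C) (hP : HasPatterns C) :
    (∀ T : LG.Theory, T.IsComplete → (∀ S : LG.Structure ℕ,
      @FirstOrder.Language.Theory.Model LG ℕ S T → LocallyIn C S) → Dichotomy LG T) ↔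
    FullConjecture := by
  refine ⟨fun hV => ?_, fun hV T _ _ => hV LG Pool.Agent.TH686.FO.countable_LGs T⟩
  rcases hP with ⟨r, f, hf, hr, h | h | h⟩ | h
  · exact fc_full hC hr hf false (fun _ => star) (fun _ _ φ P h u v hu hv => star_map h hu hv)
      cv_star h hV
  · exact fc_full hC hr hf true (fun _ => clique) (fun _ _ φ P h u v hu hv => clique_map h hu hv)
      cv_clique h hV
  · exact half_full hC hr hf h hV
  · exact grid_full hC h hV

end Pool.Agent.Results.MP_5df2c5_lc.MonadicIndependence
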