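import Pool.Agent.X180.Pol

set_option autoImplicit false

/-!
Vaught's conjecture, perfect-set form, for the first-order theories in countable relational
languages in which every relation symbol of arity at least two has only positive or only negative
occurrences (equality and unary relation symbols may occur arbitrarily), and for all theories whose
models on `ℕ` are preserved under enlarging the relations of some of these symbols and
reducing the relations of the others.
-/

namespace Pool.Agent.Results.MP_5df2c5_lc.OnePolarity

open FirstOrder FirstOrder.Language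

/-- Vaught's conjecture, perfect-set form, for the theory `T` in the language `L` (the body of the
frozen statement): the models with universe `ℕ` fall into countably many isomorphism classes, or
some continuous family of models, indexed by the Cantor space, consists of pairwise
non-isomorphic models. -/
def Dichotomy (L : FirstOrder.Language.{0, 0}) (T : L.Theory) : Prop :=
  (∃ g : ℕ → L.Structure ℕ, ∀ S : L.Structure ℕ,
      @FirstOrder.Language.Theory.Model L ℕ S T →
        ∃ n : ℕ, Nonempty (@FirstOrder.Language.Equiv L ℕ ℕ S (g n))) ∨
  (∃ f : (ℕ → Bool) → L.Structure ℕ,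
      (∀ x : ℕ → Bool, @FirstOrder.Language.Theory.Model L ℕ (f x) T) ∧
      (∀ x y : ℕ → Bool,
          Nonempty (@FirstOrder.Language.Equiv L ℕ ℕ (f x) (f y)) → x = y) ∧
      (∀ (n : ℕ) (R : L.Relations n) (a : Fin n → ℕ),
          IsClopen {x : ℕ → Bool | @FirstOrder.Language.Structure.RelMap L ℕ (f x) n R a}) ∧
      (∀ (n : ℕ) (F : L.Functions n) (a : Fin n → ℕ) (b : ℕ),
          IsOpen {x : ℕ → Bool | @FirstOrder.Language.Structure.funMap L ℕ (f x) n F a = b}))

/-- `S'` is obtained from `S` by enlarging the relations with `p R = true` and reducing the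
relations with `p R = false`; relations of arity less than two are not changed. -/
structure Change {L : FirstOrder.Language.{0, 0}} (p : ∀ n, L.Relations n → Bool)
    (S S' : L.Structure ℕ) : Prop where
  same : ∀ (n : ℕ) (R : L.Relations n) (t : Fin n → ℕ), n < 2 →
    (@FirstOrder.Language.Structure.RelMap L ℕ S' n R t ↔
      @FirstOrder.Language.Structure.RelMap L ℕ S n R t)
  larger : ∀ (n : ℕ) (R : L.Relations n) (t : Fin n → ℕ), 2 ≤ n → p n R = true →
    @FirstOrder.Language.Structure.RelMap L ℕ S n R t →
      @FirstOrder.Language.Structure.RelMap L ℕ S' n R t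
  smaller : ∀ (n : ℕ) (R : L.Relations n) (t : Fin n → ℕ), 2 ≤ n → p n R = false →
    @FirstOrder.Language.Structure.RelMap L ℕ S' n R t →
      @FirstOrder.Language.Structure.RelMap L ℕ S n R t

/-- The class of models with universe `ℕ` is preserved by these changes. -/
def Preserved {L : FirstOrder.Language.{0, 0}} (p : ∀ n, L.Relations n → Bool)
    (T : L.Theory) : Prop :=
  ∀ S S' : L.Structure ℕ, @FirstOrder.Language.Theory.Model L ℕ S T → Change p S S' →
    @FirstOrder.Language.Theory.Model L ℕ S' T

/-- `OneSign p true φ`: in `φ` every relation symbol `R` of arity at least two with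
`p R = true` has only positive occurrences, and every one with `p R = false` has only negative
occurrences. For `OneSign p false φ` the signs are exchanged. -/
def OneSign {L : FirstOrder.Language.{0, 0}} (p : ∀ n, L.Relations n → Bool) :
    Bool → {n : ℕ} → L.BoundedFormula Empty n → Prop
  | _, _, .falsum => True
  | _, _, .equal _ _ => True
  | s, _, .rel (l := l) R _ => 2 ≤ l → p l R = s
  | s, _, .imp φ ψ => OneSign p (!s) φ ∧ OneSign p s ψ
  | s, _, .all φ => OneSign p s φ

section proof

variable {L : FirstOrder.Language.{0, 0}} [L.IsRelational] {p : ∀ n, L.Relations n → Bool}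
  {S S' : L.Structure ℕ}

theorem term_eq {α : Type} (v : α → ℕ) (t : L.Term α) :
    @Term.realize L ℕ S α v t = @Term.realize L ℕ S' α v t := by
  cases t with
  | var a => rfl
  | func f _ => exact isEmptyElim f

theorem realize_of (h : Change p S S') {n : ℕ} (φ : L.BoundedFormula Empty n) :
    ∀ (s : Bool), OneSign p s φ → ∀ (v : Empty → ℕ) (xs : Fin n → ℕ),
      (s = true → @BoundedFormula.Realize L ℕ S Empty n φ v xs →
        @BoundedFormula.Realize L ℕ S' Empty n φ v xs) ∧
      (s = false → @BoundedFormula.Realize L ℕ S' Empty n φ v xs →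
        @BoundedFormula.Realize L ℕ S Empty n φ v xs) := by
  induction φ with
  | falsum => exact fun s _ v xs => ⟨fun _ h => h, fun _ h => h⟩
  | equal t₁ t₂ =>
    intro s _ v xs
    have e : @BoundedFormula.Realize L ℕ S Empty _ (.equal t₁ t₂) v xs ↔
        @BoundedFormula.Realize L ℕ S' Empty _ (.equal t₁ t₂) v xs := by
      show @Term.realize L ℕ S _ _ t₁ = @Term.realize L ℕ S _ _ t₂ ↔
        @Term.realize L ℕ S' _ _ t₁ = @Term.realize L ℕ S' _ _ t₂
      rw [term_eq (S := S) (S' := S'), term_eq (S := S) (S' := S')]
    exact ⟨fun _ => e.1, fun _ => e.2⟩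
  | rel R ts =>
    rename_i m l
    intro s hs v xs
    have e : (fun i => @Term.realize L ℕ S _ (Sum.elim v xs) (ts i)) =
        fun i => @Term.realize L ℕ S' _ (Sum.elim v xs) (ts i) := by
      funext i
      exact term_eq _ _
    have e1 : @BoundedFormula.Realize L ℕ S Empty _ (.rel R ts) v xs ↔
        @FirstOrder.Language.Structure.RelMap L ℕ S l R
          (fun i => @Term.realize L ℕ S _ (Sum.elim v xs) (ts i)) := Iff.rfl
    have e2 : @BoundedFormula.Realize L ℕ S' Empty _ (.rel R ts) v xs ↔
        @FirstOrder.Language.Structure.RelMap L ℕ S' l R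
          (fun i => @Term.realize L ℕ S _ (Sum.elim v xs) (ts i)) := by
      rw [e]
      exact Iff.rfl
    rw [e1, e2]
    rcases lt_or_ge l 2 with hl | hl
    · exact ⟨fun _ => (h.same l R _ hl).2, fun _ => (h.same l R _ hl).1⟩
    · have hp : p l R = s := hs hl
      exact ⟨fun k => h.larger l R _ hl (hp.trans k), fun k => h.smaller l R _ hl (hp.trans k)⟩
  | imp φ ψ ih1 ih2 =>
    intro s hs v xs
    obtain ⟨h1, h2⟩ := hs
    have k1 := ih1 (!s) h1 v xs
    have k2 := ih2 s h2 v xs
    refine ⟨fun k h3 h4 => ?_, fun k h3 h4 => ?_⟩
    · subst k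
      exact k2.1 rfl (h3 (k1.2 rfl h4))
    · subst k
      exact k2.2 rfl (h3 (k1.1 rfl h4))
  | all φ ih =>
    intro s hs v xs
    exact ⟨fun k h3 a => (ih s hs v (Fin.snoc xs a)).1 k (h3 a),
      fun k h3 a => (ih s hs v (Fin.snoc xs a)).2 k (h3 a)⟩

end proof

/-- **Theorem.** Let `T` be a first-order theory in a countable relational language, and let `p`
divide the relation symbols into two parts. (1) If the models of `T` with universe `ℕ` are preserved
under enlarging the relations of arity at least two in the first part and reducing those in the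
second part, then Vaught's conjecture, perfect-set form, holds for `T`. (2) This is the case if in
the axioms of `T` the relation symbols of arity at least two in the first part have only positive
occurrences and those in the second part have only negative occurrences. -/
theorem result (L : FirstOrder.Language.{0, 0}) (hL : Countable L.Symbols) (hr : L.IsRelational)
    (p : ∀ n, L.Relations n → Bool) (T : L.Theory) :
    (Preserved p T → Dichotomy L T) ∧ ((∀ φ ∈ T, OneSign p true φ) → Preserved p T) := by
  constructor
  · intro hT
    have hc : Countable (Σ n, L.Relations n) := by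
      have hL' : Countable ((Σ n, L.Functions n) ⊕ Σ n, L.Relations n) := hL
      exact (Sum.inr_injective (α := Σ n, L.Functions n) (β := Σ n, L.Relations n)).countable
    refine (Pool.Agent.W889.FO.vaughtF_iff L T).2 (Pool.Agent.X180.VC.Pol.main p T ?_)
    intro S S' hS h1 h2 h3
    exact hT S S' hS ⟨h1, h2, h3⟩
  · intro h S S' hS hc
    refine Pool.Agent.W889.FO.ax_iff.2 fun φ hφ => ?_
    exact (realize_of hc φ true (h φ hφ) _ _).1 rfl (Pool.Agent.W889.FO.ax_iff.1 hS φ hφ)

end Pool.Agent.Results.MP_5df2c5_lc.OnePolarity
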